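import Mathlib
import Pool.Agent.K4H96.GH.Low
import Pool.Agent.K4H96.GH.Up
import Pool.Agent.K4H12.GH.Even

/-!
# MP_fcccf2_gt: the Gromov-Hausdorff distance between the interval `[-1, 1]` and the `m`-ball

`Ball n` (file `Pool/Agent/K4H96/GH/Low.lean`) is the closed unit ball of `EuclideanSpace ℝ (Fin n)`
with the Euclidean distance, and `GromovHausdorff.ghDist` is the distance of Mathlib.

* Lower bound, for all `m ≥ 2` (the sharp form of helper12, `Pool/Agent/K4H12/GH/Even.lean`): divide
  `[-1, 1]` into `m + 1` parts, `m` even, and let `v j (x)` be the normalised mass near `x` minus the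
  mass near `-x` of a map `T` in the part `j`; the Borsuk-Ulam theorem for the `m - 1` functions
  `v (j + 2) - v j` gives alternating signs, so `m + 1` values of `T` near `x` and near `-x` in turn,
  with gaps of at least `2 - δ`, the first and the last of which are at a distance at most `δ`.
* Equality for `m = 2`: the map `(x, y) ↦ (x ± 2) / 3` (with the sign of `y`) outside the disc of
  radius `1/3`, and `(x, y) ↦ x` inside it, has distortion `4/3`.
-/

set_option autoImplicit false

namespace Pool.Agent.Results.MP_fcccf2_gt.IntervalDisc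

open Pool.Agent.K4H96.GH

/-- For all `m ≥ 2` the distance between the unit balls of dimensions `1` and `m` is at least
`1 - 1 / (2 h + 1)`, `h = ⌊m / 2⌋`, with equality for `m = 2`. -/
theorem result :
    (∀ m : ℕ, 2 ≤ m →
      1 - 1 / (2 * ((m / 2 : ℕ) : ℝ) + 1) ≤ GromovHausdorff.ghDist (Ball 1) (Ball m)) ∧
    GromovHausdorff.ghDist (Ball 1) (Ball 2) = 2 / 3 :=
  ⟨fun _ hm => Pool.Agent.K4H12.GH.interval hm, le_antisymm upper (lower 2 le_rfl)⟩

end Pool.Agent.Results.MP_fcccf2_gt.IntervalDisc
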