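import Mathlib
import Pool.Agent.K4H96.GH.LS

/-!
# MP_fcccf2_gt: for a fixed dimension `n` the distance of the `n`-ball to the `m`-ball tends to `1`

`Ball n` (file `Pool/Agent/K4H96/GH/Low.lean`) is the closed unit ball of `EuclideanSpace ℝ (Fin n)`
with the Euclidean distance, and `GromovHausdorff.ghDist` is the distance of Mathlib.

The `n`-ball is cut into `k ^ n` cells of diameter at most `2 sqrt n / k`. If `k ^ n ≤ m` then every
map of the sphere of dimension `m - 1` to the `n`-ball sends two nearly antipodal points to one
cell (Lusternik-Schnirelmann), so that its distortion is at least `2 - 2 sqrt n / k`.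
-/

set_option autoImplicit false

namespace Pool.Agent.Results.MP_fcccf2_gt.LimitOne

open Pool.Agent.K4H96.GH

/-- For fixed `n` the distance between the unit balls of dimensions `n` and `m` tends to the trivial
upper bound `1` as `m` tends to infinity; it is at least `1 - sqrt n / k` for `m ≥ k ^ n`. -/
theorem result (n : ℕ) :
    Filter.Tendsto (fun m : ℕ => GromovHausdorff.ghDist (Ball n) (Ball m)) Filter.atTop
      (nhds 1) ∧
    ∀ k m : ℕ, 0 < k → k ^ n ≤ m →
      1 - Real.sqrt n / k ≤ GromovHausdorff.ghDist (Ball n) (Ball m) :=
  ⟨tendsto_one n, fun k m hk hm => grid_lower n k m hk hm⟩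

end Pool.Agent.Results.MP_fcccf2_gt.LimitOne
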