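import Mathlib
import Pool.Agent.K4H96.GH.BU

/-!
# MP_fcccf2_gt: a lower bound for the Gromov-Hausdorff distance between balls of any two dimensions

`Ball n` (file `Pool/Agent/K4H96/GH/Low.lean`) is the closed unit ball of `EuclideanSpace ℝ (Fin n)`
with the Euclidean distance, and `GromovHausdorff.ghDist` is the distance of Mathlib.

For `n < m` a map from the `m`-ball to the `n`-ball of distortion `e` gives, by a version of the
Borsuk-Ulam theorem for maps that need not be continuous, two finite sets `P`, `Q` of the `n`-ball
whose convex hulls meet, with distances about at most `e` inside `P` and inside `Q` and about at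
least `2 - e` between `P` and `Q`; by the theorem of Caratheodory one may take `n + 2` points in
all, and comparing the sums of the squares of the distances gives
`(2 - e) ^ 2 ≤ e ^ 2 * n / (n + 2)`.
-/

set_option autoImplicit false

namespace Pool.Agent.Results.MP_fcccf2_gt.UniformLowerBound

open Pool.Agent.K4H96.GH

/-- For all `n < m` the distance between the unit balls of dimensions `n` and `m` is at least
`1 / (1 + sqrt (n / (n + 2)))`, and so it is more than `1 / 2`. -/
theorem result (n m : ℕ) (h : n < m) :
    1 / (1 + Real.sqrt ((n : ℝ) / ((n : ℝ) + 2))) ≤ GromovHausdorff.ghDist (Ball n) (Ball m) :=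
  general_lower n m h

end Pool.Agent.Results.MP_fcccf2_gt.UniformLowerBound
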