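import Mathlib
import Pool.Agent.K4H96.GH.Upp

/-!
# MP_fcccf2_gt: the distance of the `m`-ball to a ball of smaller dimension is at most
`1 - 1 / (4 m)`

`Ball n` (file `Pool/Agent/K4H96/GH/Low.lean`) is the closed unit ball of `EuclideanSpace ℝ (Fin n)`
with the Euclidean distance, and `GromovHausdorff.ghDist` is the distance of Mathlib.

The proof uses the partition of the `m`-ball into `2 m` classes, given by the place and the
sign of a coordinate of largest absolute value; the classes have diameter at most `2 - 1 / m`, and
they are sent to `2 m` equally spaced points of a diameter of the `n`-ball (the points of the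
`n`-ball itself, as a part of the `m`-ball, stay where they are).
-/

set_option autoImplicit false

namespace Pool.Agent.Results.MP_fcccf2_gt.UpperBound

open Pool.Agent.K4H96.GH

/-- For `1 ≤ n < m` the distance is at most `1 - 1 / (4 m)`. -/
theorem result (n m : ℕ) (hn : 1 ≤ n) (hnm : n < m) :
    GromovHausdorff.ghDist (Ball n) (Ball m) ≤ 1 - 1 / (4 * (m : ℝ)) := by
  obtain ⟨d, rfl⟩ : ∃ d, m = n + d := ⟨m - n, by omega⟩
  exact upper_general n d (by omega) (by omega)

end Pool.Agent.Results.MP_fcccf2_gt.UpperBound
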